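import Pool.Agent.X119.BP.Stm

/-! Part VAL of project BP (MP_32607b_nt). -/

namespace Pool.Agent.X211.BPV

open Finset Pool.Agent.X119.BP

theorem val_sum {p i b : ℕ} (hp : p.Prime) (hi : 1 ≤ i) (hib : i < b) :
    padicValNat p i = ∑ k ∈ Ico 1 b, if p ^ k ∣ i then 1 else 0 := by
  haveI : Fact p.Prime := ⟨hp⟩
  have hv : padicValNat p i < b := by
    have h1 : padicValNat p i ≤ Nat.log p i := padicValNat_le_nat_log i
    have h2 : Nat.log p i ≤ i := Nat.log_le_self p i
    omega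
  rw [← Finset.card_filter]
  have : (Ico 1 b).filter (fun k => p ^ k ∣ i) = Ico 1 (padicValNat p i + 1) := by
    ext k
    simp only [mem_filter, mem_Ico]
    rw [padicValNat_dvd_iff_le (by omega)]
    omega
  rw [this]
  simp

theorem pow_dvd (r e : ℕ) : (r.factorial) ^ e ∣ (r * e + 1).factorial := by
  have h := Nat.prod_factorial_dvd_factorial_sum (Finset.range e) (fun _ => r)
  simp only [prod_const, card_range, sum_const, smul_eq_mul] at h
  exact h.trans (Nat.factorial_dvd_factorial (by rw [mul_comm]; omega))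

/-- the terms of Legendre's formula -/
def T (p r e k : ℕ) : ℕ := (r % p ^ k * e + 1) / p ^ k

theorem val_C {p r e b : ℕ} (hp : p.Prime) (hb : r * e + 1 < b) (he : 1 ≤ e) :
    padicValNat p (C r e) = ∑ k ∈ Ico 1 b, T p r e k := by
  haveI : Fact p.Prime := ⟨hp⟩
  have hr : r ≤ r * e := Nat.le_mul_of_pos_right r (by omega)
  unfold C T
  rw [padicValNat.div_of_dvd (pow_dvd r e), padicValNat.pow,
    padicValNat_factorial (b := b) (by have := Nat.log_le_self p (r * e + 1); omega),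
    padicValNat_factorial (b := b) (by have := Nat.log_le_self p r; omega)]
  have key : ∀ k, (r * e + 1) / p ^ k = e * (r / p ^ k) + (r % p ^ k * e + 1) / p ^ k := by
    intro k
    have hpk : 0 < p ^ k := pow_pos hp.pos k
    have h1 : r * e + 1 = (r % p ^ k * e + 1) + p ^ k * (e * (r / p ^ k)) := by
      have := Nat.mod_add_div r (p ^ k)
      calc r * e + 1 = (r % p ^ k + p ^ k * (r / p ^ k)) * e + 1 := by rw [this]
        _ = _ := by ring
    rw [h1, Nat.add_mul_div_left _ _ hpk]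
    ring
  rw [sum_congr rfl fun k _ => key k, sum_add_distrib, ← mul_sum]
  omega

/-- the number of the two numbers divisible by `p ^ k` -/
def dl (p i J k : ℕ) : ℕ := (if p ^ k ∣ i then 1 else 0) + if p ^ k ∣ J then 1 else 0

theorem dl_le (p i J k : ℕ) : dl p i J k ≤ 2 := by
  unfold dl
  split_ifs <;> omega

variable {p r e i J k : ℕ}

theorem big (hp : p.Prime) (hi : 1 ≤ i) (hiJ : i < J) (hJ : J ≤ r * e + 1) (hk : r < p ^ k) :
    dl p i J k ≤ T p r e k := by
  have hpk : 0 < p ^ k := pow_pos hp.pos k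
  unfold dl T
  rw [Nat.mod_eq_of_lt hk]
  by_cases h1 : p ^ k ∣ i <;> by_cases h2 : p ^ k ∣ J
  · rw [if_pos h1, if_pos h2, Nat.le_div_iff_mul_le hpk]
    obtain ⟨u, rfl⟩ := h1
    obtain ⟨v, rfl⟩ := h2
    have hu : 1 ≤ u := by
      rcases Nat.eq_zero_or_pos u with h | h
      · subst h; simp at hi
      · exact h
    have huv : u < v := lt_of_mul_lt_mul_left hiJ (Nat.zero_le _)
    have : p ^ k * 2 ≤ p ^ k * v := Nat.mul_le_mul_left _ (by omega)
    linarith
  · rw [if_pos h1, if_neg h2, Nat.le_div_iff_mul_le hpk]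
    have := Nat.le_of_dvd (by omega) h1
    omega
  · rw [if_neg h1, if_pos h2, Nat.le_div_iff_mul_le hpk]
    have := Nat.le_of_dvd (by omega) h2
    omega
  · rw [if_neg h1, if_neg h2]
    exact Nat.zero_le _

theorem small (hp : p.Prime) (hre : r ≤ e) (hk : p ^ k ≤ r) (hc : 2 ≤ r % p ^ k) :
    2 ≤ T p r e k := by
  have hpk : 0 < p ^ k := pow_pos hp.pos k
  unfold T
  rw [Nat.le_div_iff_mul_le hpk]
  have : 2 * e ≤ r % p ^ k * e := Nat.mul_le_mul_right _ hc
  omega

theorem one (hp : p.Prime) (hre : r ≤ e) (hc : r % p ^ k = 1) (hq : 2 ≤ r / p ^ k) :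
    2 ≤ T p r e k := by
  have hpk : 0 < p ^ k := pow_pos hp.pos k
  unfold T
  rw [Nat.le_div_iff_mul_le hpk, hc]
  have h1 := Nat.mod_add_div r (p ^ k)
  have h2 : p ^ k * 2 ≤ p ^ k * (r / p ^ k) := Nat.mul_le_mul_left _ hq
  omega

theorem sum_of_split {b : ℕ} {f g : ℕ → ℕ} (P : Finset ℕ) (hP : P ⊆ Ico 1 b)
    (h1 : ∑ k ∈ P, f k ≤ ∑ k ∈ P, g k) (h2 : ∀ k ∈ Ico 1 b, k ∉ P → f k ≤ g k) :
    ∑ k ∈ Ico 1 b, f k ≤ ∑ k ∈ Ico 1 b, g k := by
  rw [← Finset.sum_sdiff hP, ← Finset.sum_sdiff hP]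
  refine add_le_add (Finset.sum_le_sum fun k hk => ?_) h1
  exact h2 k (Finset.mem_sdiff.1 hk).1 (Finset.mem_sdiff.1 hk).2

/-- the case `p = 2` -/
theorem case_two (hr : Odd r) (hr3 : 3 ≤ r) (hre : r ≤ e) (hi : 1 ≤ i)
    (hiJ : i < J) (hJ : J ≤ r * e + 1) {b : ℕ} (hb : r * e + 1 < b) :
    ∑ k ∈ Ico 1 b, dl 2 i J k ≤ ∑ k ∈ Ico 1 b, T 2 r e k := by
  have hp : Nat.Prime 2 := Nat.prime_two
  have hodd : ∀ k, 1 ≤ k → r % 2 ^ k % 2 = 1 := by
    intro k hk
    rw [Nat.mod_mod_of_dvd r (dvd_pow_self 2 (by omega))]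
    exact Nat.odd_iff.1 hr
  have gen : ∀ k, 1 ≤ k → (r = 2 ^ k + 1 → k = 1) → dl 2 i J k ≤ T 2 r e k := by
    intro k hk hk1
    rcases lt_or_ge r (2 ^ k) with h | h
    · exact big hp hi hiJ hJ h
    · refine (dl_le _ _ _ _).trans ?_
      rcases Nat.lt_or_ge (r % 2 ^ k) 2 with hc | hc
      · have hc1 : r % 2 ^ k = 1 := by
          have := hodd k hk
          omega
        rcases Nat.lt_or_ge (r / 2 ^ k) 2 with hq | hq
        · have h1 := Nat.mod_add_div r (2 ^ k)
          have hq1 : 0 < r / 2 ^ k := Nat.div_pos h (by positivity)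
          have hq2 : r / 2 ^ k = 1 := by omega
          rw [hq2, hc1, mul_one] at h1
          have hk' := hk1 (by omega)
          subst hk'
          unfold T
          rw [hc1, Nat.le_div_iff_mul_le (by norm_num)]
          omega
        · exact one hp hre hc1 hq
      · exact small hp hre h hc
  by_cases h : ∃ k₀, 2 ≤ k₀ ∧ r = 2 ^ k₀ + 1
  · obtain ⟨k₀, hk₀, hrk⟩ := h
    have hk₀r : k₀ < r := by
      have : k₀ < 2 ^ k₀ := Nat.lt_two_pow_self
      omega
    have hrre : r ≤ r * e := Nat.le_mul_of_pos_right r (by omega)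
    refine sum_of_split {1, k₀} ?_ ?_ ?_
    · intro x hx
      simp only [mem_insert, mem_singleton] at hx
      rw [mem_Ico]
      rcases hx with h | h <;> omega
    · rw [sum_pair (by omega), sum_pair (by omega)]
      have h1 := dl_le 2 i J 1
      have h2 := dl_le 2 i J k₀
      have h4 : 4 ≤ 2 ^ k₀ := by
        calc 4 = 2 ^ 2 := by norm_num
          _ ≤ 2 ^ k₀ := Nat.pow_le_pow_right (by norm_num) hk₀
      have h5 : 3 ≤ T 2 r e 1 := by
        unfold T
        have : r % 2 ^ 1 = 1 := by rw [pow_one]; exact Nat.odd_iff.1 hr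
        rw [this, Nat.le_div_iff_mul_le (by norm_num)]
        omega
      have h6 : 1 ≤ T 2 r e k₀ := by
        unfold T
        have : r % 2 ^ k₀ = 1 := by
          rw [hrk, Nat.add_mod_left]
          exact Nat.mod_eq_of_lt (by omega)
        rw [this, Nat.le_div_iff_mul_le (by positivity)]
        omega
      omega
    · intro k hk hkP
      simp only [mem_insert, mem_singleton, not_or] at hkP
      refine gen k (mem_Ico.1 hk).1 fun hk2 => ?_
      have : 2 ^ k = 2 ^ k₀ := by omega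
      exact absurd (Nat.pow_right_injective le_rfl this) hkP.2
  · refine sum_le_sum fun k hk => gen k (mem_Ico.1 hk).1 fun hk2 => ?_
    by_contra hne
    exact h ⟨k, by have := (mem_Ico.1 hk).1; omega, hk2⟩

theorem ineq1 (t : ℕ) : 2 * t + 4 ≤ 3 ^ t * 4 := by
  induction t with
  | zero => norm_num
  | succ t ih => rw [pow_succ]; omega

theorem ineq2 (t : ℕ) (ht : 2 ≤ t) : 2 * t + 4 ≤ 3 ^ t := by
  induction t, ht using Nat.le_induction with
  | base => norm_num
  | succ t ht ih => rw [pow_succ]; omega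

theorem ineq3 (t : ℕ) : 2 * t + 4 ≤ 9 * 5 ^ t := by
  induction t with
  | zero => norm_num
  | succ t ih => rw [pow_succ]; omega

/-- the main inequality for `p ∣ r` -/
theorem key {p e m t : ℕ} (hp : p.Prime) (hpo : Odd p) (hm : Odd m) (hpm : ¬ p ∣ m)
    (hre : p ^ (t + 1) * m ≤ e)
    (h1 : ¬ (p ^ (t + 1) * m = p ∧ e < 4 * p)) (h2 : ¬ (p = 3 ∧ p ^ (t + 1) * m = 9 ∧ e < 18))
    (h3 : ¬ (p = 5 ∧ p ^ (t + 1) * m = 25 ∧ e < 30)) :
    (2 * t + 4) * p ≤ m % p * e := by
  have hp3 : 3 ≤ p := by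
    have := hp.two_le
    rcases hpo with ⟨q, hq⟩
    omega
  have hmp : 1 ≤ m % p := by
    rcases Nat.eq_zero_or_pos (m % p) with h | h
    · exact absurd (Nat.dvd_of_mod_eq_zero h) hpm
    · exact h
  have hm1 : 1 ≤ m := hm.pos
  have hpt : 3 ^ t ≤ p ^ t := Nat.pow_le_pow_left hp3 t
  rcases lt_trichotomy m p with hlt | heq | hgt
  · rw [Nat.mod_eq_of_lt hlt]
    rcases Nat.lt_or_ge m 3 with h | h
    · have hm' : m = 1 := by
        rcases hm with ⟨q, hq⟩
        omega
      subst hm'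
      rw [one_mul]
      rw [mul_one] at hre h1 h2 h3
      rcases Nat.lt_or_ge t 2 with ht | ht
      · interval_cases t
        · rw [zero_add, pow_one] at h1
          have : ¬ e < 4 * p := fun h => h1 ⟨rfl, h⟩
          omega
        · rcases Nat.lt_or_ge p 6 with h6 | h6
          · have hp' : p = 3 ∨ p = 5 := by
              rcases hpo with ⟨q, hq⟩
              omega
            rcases hp' with rfl | rfl
            · have : ¬ e < 18 := fun h => h2 ⟨rfl, by norm_num, h⟩
              omega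
            · have : ¬ e < 30 := fun h => h3 ⟨rfl, by norm_num, h⟩
              omega
          · have h7 : 6 * p ≤ p * p := Nat.mul_le_mul_right p h6
            have h8 : p ^ (1 + 1) = p * p := by ring
            rw [h8] at hre
            omega
      · have h4 : (2 * t + 4) * p ≤ p ^ t * p := Nat.mul_le_mul_right p ((ineq2 t ht).trans hpt)
        rw [pow_succ] at hre
        omega
    · have hp5 : 5 ≤ p := by
        rcases hpo with ⟨q, hq⟩
        omega
      have h5t : 5 ^ t ≤ p ^ t := Nat.pow_le_pow_left hp5 t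
      calc (2 * t + 4) * p ≤ (9 * 5 ^ t) * p := Nat.mul_le_mul_right p (ineq3 t)
        _ ≤ (9 * p ^ t) * p := Nat.mul_le_mul_right p (Nat.mul_le_mul_left 9 h5t)
        _ = 3 * (p ^ (t + 1) * 3) := by ring
        _ ≤ m * (p ^ (t + 1) * m) := Nat.mul_le_mul h (Nat.mul_le_mul_left _ h)
        _ ≤ m * e := Nat.mul_le_mul_left _ hre
  · exact absurd (heq ▸ dvd_refl m) hpm
  · calc (2 * t + 4) * p ≤ (3 ^ t * 4) * p := Nat.mul_le_mul_right p (ineq1 t)
      _ ≤ (p ^ t * m) * p := Nat.mul_le_mul_right p (Nat.mul_le_mul hpt (by omega))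
      _ = p ^ (t + 1) * m := by ring
      _ ≤ e := hre
      _ = 1 * e := (one_mul e).symm
      _ ≤ m % p * e := Nat.mul_le_mul_right e hmp

/-- the case of odd `p` -/
theorem case_odd (hp : p.Prime) (hpo : Odd p) (hr : Odd r) (hr3 : 3 ≤ r) (hre : r ≤ e)
    (h1 : ¬ (r = p ∧ e < 4 * p)) (h2 : ¬ (p = 3 ∧ r = 9 ∧ e < 18))
    (h3 : ¬ (p = 5 ∧ r = 25 ∧ e < 30)) (hi : 1 ≤ i)
    (hiJ : i < J) (hJ : J ≤ r * e + 1) {b : ℕ} (hb : r * e + 1 < b) :
    ∑ k ∈ Ico 1 b, dl p i J k ≤ ∑ k ∈ Ico 1 b, T p r e k := by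
  haveI : Fact p.Prime := ⟨hp⟩
  have hr0 : r ≠ 0 := by omega
  set a := padicValNat p r with ha
  have hdvd : p ^ a ∣ r := pow_padicValNat_dvd
  have hnd : ∀ k, a < k → ¬ p ^ k ∣ r := by
    intro k hk h
    have := (padicValNat_dvd_iff_le hr0).1 h
    omega
  have gen : ∀ k, a < k → dl p i J k ≤ T p r e k := by
    intro k hk
    rcases lt_or_ge r (p ^ k) with h | h
    · exact big hp hi hiJ hJ h
    · refine (dl_le _ _ _ _).trans ?_
      rcases Nat.lt_or_ge (r % p ^ k) 2 with hc | hc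
      · have hc0 : r % p ^ k ≠ 0 := fun h => hnd k hk (Nat.dvd_of_mod_eq_zero h)
        have hc1 : r % p ^ k = 1 :=
          le_antisymm (Nat.lt_succ_iff.1 hc) (Nat.pos_of_ne_zero hc0)
        rcases Nat.lt_or_ge (r / p ^ k) 2 with hq | hq
        · exfalso
          have h1 := Nat.mod_add_div r (p ^ k)
          have hq1 : 0 < r / p ^ k := Nat.div_pos h (pow_pos hp.pos k)
          have hq2 : r / p ^ k = 1 := by omega
          rw [hq2, hc1, mul_one] at h1
          obtain ⟨u, hu⟩ := hpo.pow (n := k)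
          obtain ⟨v, hv⟩ := hr
          omega
        · exact one hp hre hc1 hq
      · exact small hp hre h hc
  rcases Nat.eq_zero_or_pos a with ha0 | ha0
  · exact sum_le_sum fun k hk => gen k (by have := (mem_Ico.1 hk).1; omega)
  · obtain ⟨t, ht⟩ : ∃ t, a = t + 1 := ⟨a - 1, by omega⟩
    obtain ⟨m, hm⟩ := hdvd
    have hpm : ¬ p ∣ m := by
      rintro ⟨q, rfl⟩
      refine hnd (a + 1) (by omega) ⟨q, ?_⟩
      rw [hm, pow_succ]
      ring
    have hmo : Odd m := by
      rw [hm] at hr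
      exact (Nat.odd_mul.1 hr).2
    have hm' : r = p ^ (t + 1) * m := by rw [← ht]; exact hm
    have hk := key (e := e) (t := t) hp hpo hmo hpm (by rw [← hm']; exact hre)
      (by rw [← hm']; exact h1) (by rw [← hm']; exact h2) (by rw [← hm']; exact h3)
    have hpa1 : 1 < p ^ (t + 1) := Nat.one_lt_pow (by omega) hp.one_lt
    have hT : T p r e (a + 1) = m % p * e / p := by
      unfold T
      have e1 : r % p ^ (a + 1) = p ^ (t + 1) * (m % p) := by
        rw [hm', ht, pow_succ p (t + 1), Nat.mul_mod_mul_left]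
      rw [e1, ht, pow_succ p (t + 1), ← Nat.div_div_eq_div_mul]
      congr 1
      have e2 : p ^ (t + 1) * (m % p) * e + 1 = 1 + p ^ (t + 1) * (m % p * e) := by ring
      rw [e2, Nat.add_mul_div_left _ _ (by omega), Nat.div_eq_of_lt hpa1, zero_add]
    have hT' : 2 * t + 4 ≤ T p r e (a + 1) := by
      rw [hT, Nat.le_div_iff_mul_le hp.pos]
      exact hk
    have har : a < r := by
      have h5 : a < p ^ a := Nat.lt_pow_self hp.one_lt
      have h6 : p ^ a ≤ r := Nat.le_of_dvd (by omega) (by rw [hm]; exact dvd_mul_right _ _)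
      omega
    have hrre : r ≤ r * e := Nat.le_mul_of_pos_right r (by omega)
    refine sum_of_split (Ico 1 (a + 2)) ?_ ?_ ?_
    · exact Ico_subset_Ico_right (by omega)
    · have h5 : ∑ k ∈ Ico 1 (a + 2), dl p i J k ≤ ∑ _k ∈ Ico 1 (a + 2), 2 :=
        sum_le_sum fun k _ => dl_le p i J k
      rw [sum_const, Nat.card_Ico, smul_eq_mul] at h5
      have h6 : T p r e (a + 1) ≤ ∑ k ∈ Ico 1 (a + 2), T p r e k :=
        single_le_sum (f := fun k => T p r e k) (fun _ _ => Nat.zero_le _)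
          (mem_Ico.2 ⟨by omega, by omega⟩)
      omega
    · intro k _ hkP
      refine gen k ?_
      rw [mem_Ico, not_and_or] at hkP
      have := (mem_Ico.1 (by assumption : k ∈ Ico 1 b)).1
      omega

theorem t_VAL : S_VAL := by
  intro p r e hp hr he hr3 hre h1 h2 h3 i J hi hiJ hJ
  have hb : r * e + 1 < r * e + 2 := by omega
  have hiJ' : i < r * e + 2 := by omega
  have hJ' : J < r * e + 2 := by omega
  have hJ1 : 1 ≤ J := by omega
  have he1 : 1 ≤ e := by omega
  rw [val_C hp hb he1, val_sum hp hi hiJ', val_sum hp hJ1 hJ', ← sum_add_distrib]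
  rcases hp.eq_two_or_odd' with h | h
  · subst h
    exact case_two hr hr3 hre hi hiJ hJ hb
  · exact case_odd hp h hr hr3 hre h1 h2 h3 hi hiJ hJ hb

end Pool.Agent.X211.BPV
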